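import Mathlib
import Pool.Agent.H964.CW.Stm

/-!
# Separated intervals with mass (`S_QNT`, project CW of helper964)
-/

set_option autoImplicit false

namespace Pool.Agent.H102.CW

open Finset Pool.Agent.H964.QC Pool.Agent.H964.CW

theorem sum_Ico_add (f : ℤ → ℝ) {a b c : ℤ} (hab : a ≤ b) (hbc : b ≤ c) :
    ∑ x ∈ Ico a b, f x + ∑ x ∈ Ico b c, f x = ∑ x ∈ Ico a c, f x := by
  rw [← sum_union (Ico_disjoint_Ico_consecutive a b c), Ico_union_Ico_eq_Ico hab hbc]

/-- the first place where the mass reaches `c` -/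
theorem first_place (f : ℤ → ℝ) (y z : ℤ) (c : ℝ) (hc : 0 < c) (h : c ≤ ∑ x ∈ Ico y z, f x) :
    ∃ h : ℤ, y ≤ h ∧ c ≤ ∑ x ∈ Ico y (h + 1), f x ∧ ∑ x ∈ Ico y h, f x ≤ c := by
  classical
  have hyz : y < z := by
    by_contra hn
    rw [Ico_eq_empty_of_le (not_lt.1 hn), sum_empty] at h
    linarith
  have hex : ∃ n : ℕ, c ≤ ∑ x ∈ Ico y (y + n + 1), f x := by
    refine ⟨(z - y - 1).toNat, ?_⟩
    have e : y + ((z - y - 1).toNat : ℤ) + 1 = z := by
      rw [Int.toNat_of_nonneg (by omega)]; ring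
    rw [e]; exact h
  refine ⟨y + (Nat.find hex : ℕ), by omega, Nat.find_spec hex, ?_⟩
  rcases Nat.eq_zero_or_pos (Nat.find hex) with h0 | h0
  · rw [h0]; simp [hc.le]
  · have h1 := Nat.find_min hex (Nat.sub_lt h0 one_pos)
    have e : y + ((Nat.find hex - 1 : ℕ) : ℤ) + 1 = y + (Nat.find hex : ℕ) := by
      rw [Nat.cast_sub h0]; push_cast; ring
    rw [e] at h1
    exact (not_le.1 h1).le

theorem t_QNT : S_QNT := by
  intro f S m a F hm ha hf hS hF hF0 hwin
  obtain ⟨L, R, hLR⟩ : ∃ L R : ℤ, S ⊆ Ico L R := by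
    rcases S.eq_empty_or_nonempty with rfl | hne
    · exact ⟨0, 0, by simp⟩
    · refine ⟨S.min' hne, S.max' hne + 1, fun x hx => ?_⟩
      rw [mem_Ico]
      exact ⟨min'_le _ _ hx, Int.lt_add_one_of_le (le_max' _ _ hx)⟩
  have htot : ∀ z, R ≤ z → ∑ x ∈ Ico L z, f x = F := by
    intro z hz
    rw [hF]
    symm
    exact sum_subset (hLR.trans (Ico_subset_Ico_right hz)) (fun x _ hx => hS x hx)
  have hm0 : (0 : ℝ) < m := by exact_mod_cast hm
  set c : ℝ := F / (4 * m) with hcdef
  have hc : 0 < c := by positivity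
  have hcF : 4 * m * c = F := by rw [hcdef]; field_simp
  have key : ∀ k : ℕ, k ≤ m → ∃ (lo hi : ℕ → ℤ) (y : ℤ), L ≤ y ∧
      ∑ x ∈ Ico L y, f x ≤ k * (2 * c) ∧
      (∀ i < k, lo i ≤ hi i ∧ hi i + a ≤ y ∧ c ≤ ∑ x ∈ Ico (lo i) (hi i + 1), f x) ∧
      (∀ i j, i < j → j < k → hi i + a ≤ lo j) := by
    intro k
    induction k with
    | zero =>
      intro _
      exact ⟨fun _ => 0, fun _ => 0, L, le_rfl, by simp, by simp, by simp⟩
    | succ k ih =>
      intro hk
      obtain ⟨lo, hi, y, hLy, hmass, h1, h2⟩ := ih (by omega)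
      have hsum := sum_Ico_add f hLy (le_max_right R y)
      rw [htot _ (le_max_left R y)] at hsum
      have hkm : ((k : ℝ) + 1) ≤ m := by exact_mod_cast hk
      have hbig : c ≤ ∑ x ∈ Ico y (max R y), f x := by
        nlinarith [hc, hm0]
      obtain ⟨h, hyh, h3, h4⟩ := first_place f y _ c hc hbig
      have hw := hwin h
      refine ⟨Function.update lo k y, Function.update hi k h, h + a, by omega, ?_, ?_, ?_⟩
      · have e1 := sum_Ico_add f hyh (show h ≤ h + a by omega)
        have e2 := sum_Ico_add f hLy (show y ≤ h + a by omega)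
        push_cast
        linarith
      · intro i hi'
        rcases Nat.lt_succ_iff_lt_or_eq.1 hi' with h5 | rfl
        · rw [Function.update_of_ne h5.ne, Function.update_of_ne h5.ne]
          obtain ⟨h6, h7, h8⟩ := h1 i h5
          exact ⟨h6, by omega, h8⟩
        · rw [Function.update_self, Function.update_self]
          exact ⟨hyh, le_rfl, h3⟩
      · intro i j hij hj
        rw [Function.update_of_ne (show i ≠ k by omega)]
        rcases Nat.lt_succ_iff_lt_or_eq.1 hj with h5 | rfl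
        · rw [Function.update_of_ne h5.ne]
          exact h2 i j hij h5
        · rw [Function.update_self]
          exact (h1 i hij).2.1
  obtain ⟨lo, hi, y, -, -, h1, h2⟩ := key m le_rfl
  refine ⟨fun i => lo i, fun i => hi i, fun i => (h1 i i.isLt).1,
    fun i j hij => h2 i j hij j.isLt, fun i => ?_⟩
  have h3 := (h1 i i.isLt).2.2
  have e : Ico (lo i) (hi i + 1) = Icc (lo i) (hi i) := by
    ext x; simp only [mem_Ico, mem_Icc]; omega
  rw [e] at h3
  exact h3

end Pool.Agent.H102.CW
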